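import Mathlib
import Pool.Agent.H75.LGroup

set_option autoImplicit false

namespace Pool.Agent.Results.MP_98d06d_al.SupInfEmbedding

open Pool.Agent.H75.LGroup

universe u v

/-- A right order on a group: a right-invariant total order. -/
def IsRightOrder {G : Type u} [Group G] (r : G → G → Prop) : Prop :=
  (∀ a, r a a) ∧ (∀ a b, r a b → r b a → a = b) ∧ (∀ a b c, r a b → r b c → r a c) ∧
    (∀ a b, r a b ∨ r b a) ∧ ∀ a b c, r a b → r (a * c) (b * c)

/-- The left order obtained from a right order by inversion. -/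
@[reducible] noncomputable def leftOrder {G : Type u} [Group G] (r : G → G → Prop)
    (h : IsRightOrder r) : LinearOrder G where
  le a b := r b⁻¹ a⁻¹
  lt a b := r b⁻¹ a⁻¹ ∧ ¬ r a⁻¹ b⁻¹
  le_refl _ := h.1 _
  le_trans _ _ _ h1 h2 := h.2.2.1 _ _ _ h2 h1
  le_antisymm _ _ h1 h2 := inv_injective (h.2.1 _ _ h2 h1)
  le_total _ _ := h.2.2.2.1 _ _
  lt_iff_le_not_ge _ _ := Iff.rfl
  toDecidableLE := Classical.decRel _

theorem exists_lgroup {G : Type u} [Group G] [PartialOrder G] [MulLeftMono G] [MulRightMono G]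
    {ι : Type v} (r : ι → G → G → Prop) (hr : ∀ i, IsRightOrder (r i))
    (hle : ∀ a b : G, a ≤ b ↔ ∀ i, r i a b) :
    ∃ (K : Type (max u v)) (_ : Group K) (_ : Lattice K) (_ : MulLeftMono K) (_ : MulRightMono K)
      (φ : G →* K), ∀ g : G, 1 ≤ φ g ↔ 1 ≤ g := by
  let L : ∀ _ : ι, LinearOrder G := fun i => leftOrder (r i) (hr i)
  let φ : G →* @AF ι (fun _ => G) L :=
    { toFun := fun g => @AF.mk ι (fun _ => G) L (fun i =>
        { toEquiv := Equiv.mulLeft g
          map_rel_iff' := fun {a b} => by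
            change r i (g * b)⁻¹ (g * a)⁻¹ ↔ r i b⁻¹ a⁻¹
            constructor
            · intro h
              simpa using (hr i).2.2.2.2 _ _ g h
            · intro h
              simpa using (hr i).2.2.2.2 _ _ g⁻¹ h })
      map_one' := by
        apply @AF.ext ι (fun _ => G) L
        funext i
        ext x
        exact one_mul x
      map_mul' := fun a b => by
        apply @AF.ext ι (fun _ => G) L
        funext i
        ext x
        exact mul_assoc a b x }
  refine ⟨@AF ι (fun _ => G) L, inferInstance, inferInstance, inferInstance, inferInstance, φ, ?_⟩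
  intro g
  change (∀ i x, r i (g * x)⁻¹ x⁻¹) ↔ 1 ≤ g
  constructor
  · intro h
    have h1 : g⁻¹ ≤ 1 := (hle _ _).2 fun i => by simpa using h i 1
    exact inv_le_one'.1 h1
  · intro h i x
    apply (hle _ _).1
    rw [inv_le_inv_iff]
    exact le_mul_of_one_le_left' h

/-- A partially ordered group whose order is an intersection of right orders has an
order-embedding into a lattice-ordered group preserving all existing suprema and infima. -/
theorem result (G : Type u) [Group G] [PartialOrder G] [MulLeftMono G] [MulRightMono G]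
    (ι : Type v) (r : ι → G → G → Prop) (hr : ∀ i, IsRightOrder (r i))
    (hle : ∀ a b : G, a ≤ b ↔ ∀ i, r i a b) :
    ∃ (H : Type (max u v)) (_ : Group H) (_ : Lattice H) (_ : MulLeftMono H)
      (_ : MulRightMono H) (φ : G →* H), Function.Injective φ ∧
      (∀ a b : G, a ≤ b ↔ φ a ≤ φ b) ∧
      (∀ (S : Set G) (s : G), IsLUB S s → IsLUB (φ '' S) (φ s)) ∧
      (∀ (S : Set G) (s : G), IsGLB S s → IsGLB (φ '' S) (φ s)) := by
  obtain ⟨K, _, _, _, _, ψ, hψ⟩ := exists_lgroup r hr hle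
  obtain ⟨Q, hC, hQ, hS⟩ := exists_max_cone ψ hψ
  obtain ⟨H, _, _, _, _, π, hπ, hπle⟩ := exists_quot (bdSub ψ) (fun _ _ => sup_mem_bdSub ψ)
    (fun _ _ => inf_mem_bdSub ψ) Q hC
  let φ : G →* H := π.comp (ψ.codRestrict (bdSub ψ) (phi_mem_bdSub ψ))
  have h1 : ∀ a b : G, a ≤ b ↔ φ a ≤ φ b := by
    intro a b
    simp only [φ, MonoidHom.comp_apply]
    rw [hπle]
    change _ ↔ (ψ a)⁻¹ * ψ b ∈ Q
    rw [← map_inv, ← map_mul, hQ, le_inv_mul_iff_mul_le, mul_one]
  have h2 : ∀ S : Set G, IsGLB S 1 → ∀ h : H, (∀ s ∈ S, h ≤ φ s) → h ≤ 1 := by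
    intro S hS1 h hh
    obtain ⟨h, rfl⟩ := hπ h
    have := hS S hS1 h h.2 (fun s hs => (hπle h ⟨ψ s, phi_mem_bdSub ψ s⟩).1 (hh s hs))
    rw [← map_one π, hπle]
    simpa using this
  refine ⟨H, inferInstance, inferInstance, inferInstance, inferInstance, φ, ?_, h1, ?_, ?_⟩
  · intro a b hab
    exact le_antisymm ((h1 a b).2 hab.le) ((h1 b a).2 hab.ge)
  · intro S t ht
    refine ⟨?_, fun h hh => ?_⟩
    · rintro _ ⟨s, hs, rfl⟩
      exact (h1 _ _).1 (ht.1 hs)
    · have h3 : IsGLB ((fun s => t * s⁻¹) '' S) 1 := by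
        refine ⟨?_, fun x hx => ?_⟩
        · rintro _ ⟨s, hs, rfl⟩
          simpa using ht.1 hs
        · have : t ≤ x⁻¹ * t := ht.2 fun s hs => by
            have h4 : x ≤ t * s⁻¹ := hx ⟨s, hs, rfl⟩
            rw [le_inv_mul_iff_mul_le]
            exact le_mul_inv_iff_mul_le.1 h4
          simpa using this
      have h5 := h2 _ h3 (φ t * h⁻¹) (by
        rintro _ ⟨s, hs, rfl⟩
        have h6 : φ s ≤ h := hh ⟨s, hs, rfl⟩
        have h7 : h⁻¹ ≤ (φ s)⁻¹ := inv_le_inv_iff.2 h6
        simp only [map_mul, map_inv]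
        gcongr)
      simpa using h5
  · intro S t ht
    refine ⟨?_, fun h hh => ?_⟩
    · rintro _ ⟨s, hs, rfl⟩
      exact (h1 _ _).1 (ht.1 hs)
    · have h3 : IsGLB ((fun s => t⁻¹ * s) '' S) 1 := by
        refine ⟨?_, fun x hx => ?_⟩
        · rintro _ ⟨s, hs, rfl⟩
          simpa using ht.1 hs
        · have : t * x ≤ t := ht.2 fun s hs => by
            have h4 : x ≤ t⁻¹ * s := hx ⟨s, hs, rfl⟩
            exact le_inv_mul_iff_mul_le.1 h4
          simpa using this
      have h5 := h2 _ h3 ((φ t)⁻¹ * h) (by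
        rintro _ ⟨s, hs, rfl⟩
        have h6 : h ≤ φ s := hh ⟨s, hs, rfl⟩
        simp only [map_mul, map_inv]
        gcongr)
      simpa using h5

end Pool.Agent.Results.MP_98d06d_al.SupInfEmbedding
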